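import Pool.Agent.Y811.PC.Stm

set_option autoImplicit false

/-!
# The parabolic contact law in the scale of the parameter, satellite case
-/

namespace Pool.Agent.Y366.PC

open Complex Metric Set Filter Topology Pool.Agent.H712R2 Pool.Agent.H713R2 N62a1eb23
open Pool.Agent.Y811.PC

/-- the value of `A / k` as a limit of the two bounds -/
theorem tends_bounds (A k : ℝ) (hk : 0 < k) :
    Tendsto (fun δ : ℝ => (A - δ) / (k + δ)) (𝓝[>] 0) (𝓝 (A / k)) ∧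
      Tendsto (fun δ : ℝ => (A + δ) / (k - δ)) (𝓝[>] 0) (𝓝 (A / k)) := by
  constructor
  · have h : ContinuousAt (fun δ : ℝ => (A - δ) / (k + δ)) 0 := by
      apply ContinuousAt.div
      · fun_prop
      · fun_prop
      · simp only [add_zero]
        exact hk.ne'
    have h2 : Tendsto (fun δ : ℝ => (A - δ) / (k + δ)) (𝓝 0) (𝓝 ((A - 0) / (k + 0))) := h
    rw [sub_zero, add_zero] at h2
    exact h2.mono_left nhdsWithin_le_nhds
  · have h : ContinuousAt (fun δ : ℝ => (A + δ) / (k - δ)) 0 := by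
      apply ContinuousAt.div
      · fun_prop
      · fun_prop
      · simp only [sub_zero]
        exact hk.ne'
    have h2 : Tendsto (fun δ : ℝ => (A + δ) / (k - δ)) (𝓝 0) (𝓝 ((A + 0) / (k - 0))) := h
    rw [sub_zero, add_zero] at h2
    exact h2.mono_left nhdsWithin_le_nhds

/-- From the two estimates to the supremum. -/
theorem sup_bounds (ψ : ℂ → ℂ) (c₀ : ℂ) (ρ B₁ B₂ : ℝ)
    (hlow : ∀ h ∈ Dr ψ c₀ ρ, B₁ ≤ Real.log (1 / h))
    (hup : ∃ h ∈ Dr ψ c₀ ρ, Real.log (1 / h) ≤ B₂) :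
    B₁ ≤ Real.log (1 / sSup (Dr ψ c₀ ρ)) ∧ Real.log (1 / sSup (Dr ψ c₀ ρ)) ≤ B₂ := by
  have hpos : ∀ h ∈ Dr ψ c₀ ρ, 0 < h := by
    rintro h ⟨w, hw, rfl, -⟩
    linarith
  have hle : ∀ h ∈ Dr ψ c₀ ρ, h ≤ Real.exp (-B₁) := by
    intro h hh
    have h1 := hlow h hh
    have h2 := hpos h hh
    rw [one_div, Real.log_inv] at h1
    rw [← Real.log_le_iff_le_exp h2]
    linarith
  obtain ⟨h, hh, hh2⟩ := hup
  have hb : BddAbove (Dr ψ c₀ ρ) := ⟨Real.exp (-B₁), hle⟩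
  have h0 := hpos h hh
  have h1 : h ≤ sSup (Dr ψ c₀ ρ) := le_csSup hb hh
  have h2 : sSup (Dr ψ c₀ ρ) ≤ Real.exp (-B₁) := csSup_le ⟨h, hh⟩ hle
  have h3 : 0 < sSup (Dr ψ c₀ ρ) := lt_of_lt_of_le h0 h1
  constructor
  · rw [one_div, Real.log_inv]
    rw [← Real.log_le_iff_le_exp h3] at h2
    linarith
  · refine le_trans ?_ hh2
    rw [one_div, one_div, Real.log_inv, Real.log_inv]
    exact neg_le_neg (Real.log_le_log h0 h1)

theorem t_CSC (h1 : S_IFT) (hA : S_ANA) : S_CSC := by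
  intro d m q c₀ z₀ ε₀ hPD hR hmu al κ hal hal0 hfix hder hκ ψ hψ
  obtain ⟨hε₀, hR1, hR2⟩ := hR
  set A : ℝ := 2 * Real.pi * m * Real.log d / q with hAdef
  have hq : (0 : ℝ) < q := by exact_mod_cast hPD.hq
  have hm : (0 : ℝ) < m := by exact_mod_cast hPD.hm
  have hd : (1 : ℝ) < d := by
    have := hPD.hd
    exact_mod_cast (by omega : 1 < d)
  have hlog : 0 < Real.log d := Real.log_pos hd
  have hA0 : 0 < A := by
    have := Real.pi_pos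
    positivity
  have hk : 0 < ‖κ‖ := norm_pos_iff.2 hκ
  have hlim : 2 * Real.pi * m * Real.log d / (q * ‖κ‖) = A / ‖κ‖ := by
    rw [hAdef, div_div]
  rw [hlim]
  -- the implicit function
  have hFa : AnalyticAt ℂ (fun p : ℂ × ℂ => G d m p.1 p.2 - p.2) (c₀, z₀) :=
    (hA d m c₀ z₀).1.sub analyticAt_snd
  have hslice : DifferentiableAt ℂ (G d m c₀) z₀ := by
    have h2 : DifferentiableAt ℂ (fun p : ℂ × ℂ => G d m p.1 p.2) (c₀, z₀) :=
      (hA d m c₀ z₀).1.differentiableAt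
    have h3 : DifferentiableAt ℂ (fun y : ℂ => ((c₀, y) : ℂ × ℂ)) z₀ :=
      (differentiableAt_const c₀).prodMk differentiableAt_id
    exact h2.comp z₀ h3
  have hFd : deriv (fun y => (fun p : ℂ × ℂ => G d m p.1 p.2 - p.2) (c₀, y)) z₀ ≠ 0 := by
    have h2 : HasDerivAt (fun y => G d m c₀ y - y) (mu d m c₀ z₀ - 1) z₀ :=
      hslice.hasDerivAt.sub (hasDerivAt_id z₀)
    have h3 : deriv (fun y => (fun p : ℂ × ℂ => G d m p.1 p.2 - p.2) (c₀, y)) z₀ =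
        mu d m c₀ z₀ - 1 := h2.deriv
    rw [h3]
    exact sub_ne_zero.2 hmu
  obtain ⟨δ₁, η₁, y, hδ₁, hη₁, hyd, hy0, hyf, hyu⟩ := h1 (fun p : ℂ × ℂ => G d m p.1 p.2 - p.2)
    c₀ z₀ hFa (by simp only []; rw [hPD.fix, sub_self]) hFd
  -- the multiplier
  have hl0 : mu d m c₀ (al c₀) = mu d m c₀ z₀ := by rw [hal0]
  have hlo := hder.isLittleO
  -- facts near `c₀`
  have near : ∀ δ : ℝ, 0 < δ → ∀ ε : ℝ, 0 < ε → ∃ r : ℝ, 0 < r ∧ ∀ c : ℂ, ‖c - c₀‖ ≤ r →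
      G d m c (al c) = al c ∧ ‖al c - z₀‖ < ε ∧
      ‖mu d m c (al c) - mu d m c₀ z₀‖ ≤ (‖κ‖ + δ) * ‖c - c₀‖ ∧
      (‖κ‖ - δ) * ‖c - c₀‖ ≤ ‖mu d m c (al c) - mu d m c₀ z₀‖ := by
    intro δ hδ ε hε
    have e1 : ∀ᶠ c in 𝓝 c₀, ‖al c - z₀‖ < ε := by
      have h2 : Tendsto al (𝓝 c₀) (𝓝 z₀) := by
        have := hal
        unfold ContinuousAt at this
        rwa [hal0] at this
      have h3 := (Metric.tendsto_nhds.1 h2) ε hε
      filter_upwards [h3] with c hc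
      rwa [dist_eq_norm] at hc
    have e2 := hlo.def hδ
    obtain ⟨r, hr, hball⟩ := Metric.eventually_nhds_iff_ball.1 (hfix.and (e1.and e2))
    refine ⟨r / 2, by linarith, fun c hc => ?_⟩
    obtain ⟨f1, f2, f3⟩ := hball c (by rw [mem_ball, dist_eq_norm]; linarith)
    rw [hl0] at f3
    refine ⟨f1, f2, ?_, ?_⟩
    · have h4 : mu d m c (al c) - mu d m c₀ z₀ =
          (mu d m c (al c) - mu d m c₀ z₀ - (c - c₀) • κ) + (c - c₀) • κ := by ring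
      rw [h4]
      refine (norm_add_le _ _).trans ?_
      rw [norm_smul (c - c₀) κ]
      nlinarith
    · have h5 : ‖(c - c₀) • κ‖ ≤ ‖mu d m c (al c) - mu d m c₀ z₀‖ +
          ‖mu d m c (al c) - mu d m c₀ z₀ - (c - c₀) • κ‖ := by
        have h6 : (c - c₀) • κ = (mu d m c (al c) - mu d m c₀ z₀) -
            (mu d m c (al c) - mu d m c₀ z₀ - (c - c₀) • κ) := by ring
        conv_lhs => rw [h6]
        exact norm_sub_le _ _
      rw [norm_smul (c - c₀) κ] at h5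
      nlinarith
  -- the two bounds
  have main : ∀ δ : ℝ, 0 < δ → δ < A → δ < ‖κ‖ → ∀ᶠ ρ : ℝ in 𝓝[>] 0,
      (A - δ) / (‖κ‖ + δ) ≤ ρ * Real.log (1 / sSup (Dr ψ c₀ ρ)) ∧
        ρ * Real.log (1 / sSup (Dr ψ c₀ ρ)) ≤ (A + δ) / (‖κ‖ - δ) := by
    intro δ hδ hδA hδk
    obtain ⟨r₀, hr₀, hL⟩ := hR1 δ hδ
    obtain ⟨ra, hra, hna⟩ := near δ hδ ε₀ hε₀
    obtain ⟨rb, hrb, hnb⟩ := near δ hδ η₁ hη₁
    obtain ⟨r₂, hr₂, hU⟩ := hR2 δ (min rb (min (δ₁ / 2) (η₁ / 2))) hδ (by positivity)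
    have hkd : 0 < ‖κ‖ - δ := by linarith
    have hkd' : 0 < ‖κ‖ + δ := by linarith
    have hthr : 0 < min (min ra ε₀) (min (r₀ / (‖κ‖ + δ)) (r₂ / (‖κ‖ - δ))) := by positivity
    have hev : ∀ᶠ ρ : ℝ in 𝓝[>] 0, 0 < ρ ∧
        ρ < min (min ra ε₀) (min (r₀ / (‖κ‖ + δ)) (r₂ / (‖κ‖ - δ))) :=
      (eventually_mem_nhdsWithin).and (nhdsWithin_le_nhds (Iio_mem_nhds hthr))
    filter_upwards [hev] with ρ hρ
    obtain ⟨hρ0, hρ1⟩ := hρ
    have g1 : ρ ≤ ra := (hρ1.le.trans (min_le_left _ _)).trans (min_le_left _ _)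
    have g2 : ρ ≤ ε₀ := (hρ1.le.trans (min_le_left _ _)).trans (min_le_right _ _)
    have g3 : ρ * (‖κ‖ + δ) ≤ r₀ := by
      rw [← le_div_iff₀ hkd']
      exact (hρ1.le.trans (min_le_right _ _)).trans (min_le_left _ _)
    have g4 : ρ * (‖κ‖ - δ) ≤ r₂ := by
      rw [← le_div_iff₀ hkd]
      exact (hρ1.le.trans (min_le_right _ _)).trans (min_le_right _ _)
    -- lower estimate
    have low : ∀ h ∈ Dr ψ c₀ ρ, (A - δ) / ((‖κ‖ + δ) * ρ) ≤ Real.log (1 / h) := by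
      rintro h ⟨w, hw, rfl, hwc⟩
      obtain ⟨f1, f2, f3, -⟩ := hna (ψ w) (hwc.trans g1)
      have f4 : ‖mu d m (ψ w) (al (ψ w)) - mu d m c₀ z₀‖ ≤ (‖κ‖ + δ) * ρ :=
        f3.trans (mul_le_mul_of_nonneg_left hwc hkd'.le)
      have f5 := hL ψ hψ w (al (ψ w)) hw (hwc.trans g2) f2.le f1 (by
        refine f4.trans ?_
        rw [mul_comm]
        exact g3)
      have f6 : 0 < Real.log (1 / (‖w‖ - 1)) := by
        by_contra hcon
        have := mul_nonpos_of_nonneg_of_nonpos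
          (norm_nonneg (mu d m (ψ w) (al (ψ w)) - mu d m c₀ z₀)) (not_lt.1 hcon)
        linarith
      rw [div_le_iff₀ (by positivity)]
      calc A - δ ≤ ‖mu d m (ψ w) (al (ψ w)) - mu d m c₀ z₀‖ * Real.log (1 / (‖w‖ - 1)) := f5
        _ ≤ ((‖κ‖ + δ) * ρ) * Real.log (1 / (‖w‖ - 1)) :=
            mul_le_mul_of_nonneg_right f4 f6.le
        _ = Real.log (1 / (‖w‖ - 1)) * ((‖κ‖ + δ) * ρ) := mul_comm _ _
    -- upper estimate
    have up : ∃ h ∈ Dr ψ c₀ ρ, Real.log (1 / h) ≤ (A + δ) / ((‖κ‖ - δ) * ρ) := by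
      obtain ⟨w, α, hw, hwc, hα, hG, hmu', hlogw⟩ := hU ((‖κ‖ - δ) * ρ) (by positivity)
        (by rw [mul_comm]; exact g4) ψ hψ
      have k1 : ‖ψ w - c₀‖ ≤ rb := hwc.trans (min_le_left _ _)
      have k2 : ‖ψ w - c₀‖ < δ₁ := by
        have := hwc.trans ((min_le_right _ _).trans (min_le_left _ _))
        linarith
      have k3 : ‖α - z₀‖ < η₁ := by
        have := hα.trans ((min_le_right _ _).trans (min_le_right _ _))
        linarith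
      obtain ⟨f1, f2, -, f3⟩ := hnb (ψ w) k1
      have k4 : ψ w ∈ ball c₀ δ₁ := by rwa [mem_ball, dist_eq_norm]
      have k5 : α = y (ψ w) := hyu (ψ w) k4 α (by rwa [mem_ball, dist_eq_norm])
        (by simp only []; rw [hG, sub_self])
      have k6 : al (ψ w) = y (ψ w) := hyu (ψ w) k4 (al (ψ w)) (by rwa [mem_ball, dist_eq_norm])
        (by simp only []; rw [f1, sub_self])
      have k7 : α = al (ψ w) := by rw [k5, k6]
      rw [k7] at hmu'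
      have k8 : (‖κ‖ - δ) * ‖ψ w - c₀‖ ≤ (‖κ‖ - δ) * ρ := f3.trans hmu'
      have k9 : ‖ψ w - c₀‖ ≤ ρ := le_of_mul_le_mul_left k8 hkd
      refine ⟨‖w‖ - 1, ⟨w, hw, rfl, k9⟩, ?_⟩
      rw [le_div_iff₀ (by positivity), mul_comm]
      exact hlogw
    obtain ⟨s1, s2⟩ := sup_bounds ψ c₀ ρ _ _ low up
    constructor
    · have e : (A - δ) / (‖κ‖ + δ) = ρ * ((A - δ) / ((‖κ‖ + δ) * ρ)) := by
        field_simp
      rw [e]
      exact mul_le_mul_of_nonneg_left s1 hρ0.le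
    · have e : (A + δ) / (‖κ‖ - δ) = ρ * ((A + δ) / ((‖κ‖ - δ) * ρ)) := by
        field_simp
      rw [e]
      exact mul_le_mul_of_nonneg_left s2 hρ0.le
  -- the limit
  obtain ⟨t1, t2⟩ := tends_bounds A ‖κ‖ hk
  have hs1 : ∀ᶠ δ : ℝ in 𝓝[>] (0 : ℝ), δ < A := nhdsWithin_le_nhds (Iio_mem_nhds hA0)
  have hs2 : ∀ᶠ δ : ℝ in 𝓝[>] (0 : ℝ), δ < ‖κ‖ := nhdsWithin_le_nhds (Iio_mem_nhds hk)
  have hs3 : ∀ᶠ δ : ℝ in 𝓝[>] (0 : ℝ), 0 < δ := eventually_mem_nhdsWithin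
  have hsmall : ∀ᶠ δ : ℝ in 𝓝[>] 0, 0 < δ ∧ δ < A ∧ δ < ‖κ‖ := hs3.and (hs1.and hs2)
  rw [tendsto_order]
  constructor
  · intro a ha
    obtain ⟨δ, ⟨hδ, hδA, hδk⟩, hδa⟩ := (hsmall.and (t1.eventually (lt_mem_nhds ha))).exists
    filter_upwards [main δ hδ hδA hδk] with ρ hρ
    exact lt_of_lt_of_le hδa hρ.1
  · intro a ha
    obtain ⟨δ, ⟨hδ, hδA, hδk⟩, hδa⟩ := (hsmall.and (t2.eventually (gt_mem_nhds ha))).exists
    filter_upwards [main δ hδ hδA hδk] with ρ hρ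
    exact lt_of_le_of_lt hρ.2 hδa

end Pool.Agent.Y366.PC
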